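import Mathlib
import Pool.Agent.H964.CW.Stm

/-! # Project CW (helper964), task UUC: the second moment in the critical window (helper230) -/

set_option autoImplicit false

open MeasureTheory ProbabilityTheory Filter Finset

namespace Pool.Agent.H230.CW

open Pool.Agent.H964.QC Pool.Agent.H964.CW

theorem RR_range (n : ℕ) : RR n = ∑ k ∈ range n, rr (k + 1) := by
  induction n with
  | zero => simp [RR]
  | succ n ih =>
    rw [Finset.sum_range_succ, ← ih]
    unfold RR
    rw [Finset.sum_Icc_succ_top (by omega)]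

theorem UU_refl (s : ℝ) (n : ℕ) :
    UU s n = 1 + s * ∑ k ∈ range n, rr (k + 1) * UU s (n - 1 - k) := by
  rw [UU, Fin.sum_univ_eq_sum_range (fun i => rr (n - i) * UU s i) n,
    ← Finset.sum_range_reflect (fun i => rr (n - i) * UU s i) n]
  congr 2
  refine Finset.sum_congr rfl fun k hk => ?_
  rw [Finset.mem_range] at hk
  have : n - (n - 1 - k) = k + 1 := by omega
  rw [this]

theorem one_le_UU (h : ∀ n, 0 < rr n) (s : ℝ) (hs : 0 ≤ s) (n : ℕ) : 1 ≤ UU s n := by
  induction n using Nat.strong_induction_on with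
  | _ n ih =>
    rw [UU_refl]
    have : 0 ≤ s * ∑ k ∈ range n, rr (k + 1) * UU s (n - 1 - k) := by
      apply mul_nonneg hs
      refine Finset.sum_nonneg fun k hk => mul_nonneg (h _).le ?_
      rw [Finset.mem_range] at hk
      have := ih (n - 1 - k) (by omega)
      linarith
    linarith

theorem UU_succ (h : ∀ n, 0 < rr n) (s : ℝ) (hs : 0 ≤ s) (n : ℕ) : UU s n ≤ UU s (n + 1) := by
  induction n using Nat.strong_induction_on with
  | _ n ih =>
    rw [UU_refl s n, UU_refl s (n + 1), Finset.sum_range_succ]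
    have h1 : ∑ k ∈ range n, rr (k + 1) * UU s (n - 1 - k) ≤
        ∑ k ∈ range n, rr (k + 1) * UU s (n + 1 - 1 - k) := by
      refine Finset.sum_le_sum fun k hk => mul_le_mul_of_nonneg_left ?_ (h _).le
      rw [Finset.mem_range] at hk
      have e : n + 1 - 1 - k = (n - 1 - k) + 1 := by omega
      rw [e]
      exact ih _ (by omega)
    have h2 : 0 ≤ rr (n + 1) * UU s (n + 1 - 1 - n) :=
      mul_nonneg (h _).le (zero_le_one.trans (one_le_UU h s hs _))
    have h3 := mul_le_mul_of_nonneg_left
      (show ∑ k ∈ range n, rr (k + 1) * UU s (n - 1 - k) ≤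
        ∑ k ∈ range n, rr (k + 1) * UU s (n + 1 - 1 - k) + rr (n + 1) * UU s (n + 1 - 1 - n) by
          linarith) hs
    linarith

theorem UU_mono (h : ∀ n, 0 < rr n) (s : ℝ) (hs : 0 ≤ s) : Monotone (UU s) :=
  monotone_nat_of_le_succ (UU_succ h s hs)

theorem sub_bound (hUU : S_UU) (s : ℝ) (n : ℕ) (hs : 0 < s) (hL : 1 ≤ 1 / s - RR n) :
    s * UU s n ≤ 1 / (1 / s - RR n) := by
  have h1 : 1 - s * RR n = s * (1 / s - RR n) := by field_simp
  have h2 : 0 < s * (1 / s - RR n) := mul_pos hs (by linarith)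
  have h3 : s * RR n < 1 := by linarith
  have h4 := (hUU.1 s n hs.le h3).2
  calc s * UU s n ≤ s * (1 / (1 - s * RR n)) := mul_le_mul_of_nonneg_left h4 hs.le
    _ = 1 / (1 / s - RR n) := by
      rw [h1]
      field_simp

theorem crit (hRR : S_RR) (hUU : S_UU) (θ : ℝ) (_ : 0 ≤ θ) : ∃ C : ℝ, 1 ≤ C ∧
    ∀ (s : ℝ) (n : ℕ), 0 < s → s ≤ 1 / C → -θ ≤ 1 / s - RR n → s * UU s n ≤ C := by
  obtain ⟨hr0, hr1, hr2, hr3, hr4, hr5, hr6⟩ := hRR
  obtain ⟨C1, hC1⟩ : ∃ C1 : ℕ, 2 * Real.exp (8 * (θ + 1)) ≤ C1 := exists_nat_ge _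
  have hC1p : (0 : ℝ) < C1 := lt_of_lt_of_le (by positivity) hC1
  have hC1n : 0 < C1 := by exact_mod_cast hC1p
  refine ⟨Real.exp C1 + C1 + 1, ?_, ?_⟩
  · have := Real.exp_pos (C1 : ℝ)
    linarith
  intro s n hs hsC hL
  have hexp := Real.exp_pos (C1 : ℝ)
  by_cases hL1 : 1 ≤ 1 / s - RR n
  · have h1 := sub_bound hUU s n hs hL1
    have h2 : 1 / (1 / s - RR n) ≤ 1 := by
      rw [div_le_one (by linarith)]
      exact hL1
    linarith
  push Not at hL1
  have hs1 : Real.exp C1 + C1 + 1 ≤ 1 / s := by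
    rw [le_div_iff₀ hs]
    rw [le_div_iff₀ (by positivity)] at hsC
    linarith
  have hRn : RR n ≤ n := by
    rw [RR_range]
    calc ∑ k ∈ range n, rr (k + 1) ≤ ∑ k ∈ range n, (1 : ℝ) := by
          refine Finset.sum_le_sum fun k _ => (hr1 (k + 1)).trans ?_
          rw [div_le_one (by positivity)]
          push_cast
          have : (0 : ℝ) ≤ k := Nat.cast_nonneg k
          linarith
      _ = n := by simp
  have hnC : (C1 : ℝ) < n := by linarith
  have hn0 : (0 : ℝ) < n := hC1p.trans hnC
  have hnn : 0 < n := by exact_mod_cast hn0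
  set a : ℕ := n / C1 with ha
  have han : a ≤ n := Nat.div_le_self _ _
  have haC : a * C1 ≤ n := Nat.div_mul_le_self _ _
  have haC' : (a : ℝ) * C1 ≤ n := by exact_mod_cast haC
  have hRa : 2 * (θ + 1) ≤ RR n - RR a := by
    refine le_trans ?_ (hr5 a n han)
    have h1 : Real.exp (8 * (θ + 1)) ≤ ((n : ℝ) + 1) / ((a : ℝ) + 1) := by
      rw [le_div_iff₀ (by positivity)]
      have h2 : Real.exp (8 * (θ + 1)) * ((a : ℝ) + 1) ≤ (C1 : ℝ) / 2 * ((a : ℝ) + 1) :=
        mul_le_mul_of_nonneg_right (by linarith) (by positivity)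
      have h3 : (C1 : ℝ) / 2 * ((a : ℝ) + 1) = (a * C1 + C1) / 2 := by ring
      linarith
    have h2 := Real.log_le_log (Real.exp_pos _) h1
    rw [Real.log_exp] at h2
    linarith
  set μ : ℝ := C1 / n with hμ
  have hμ0 : 0 < μ := div_pos hC1p hn0
  set Sm : ℝ := ∑ k ∈ range n, rr (k + 1) * Real.exp (-(μ * ((k : ℝ) + 1))) with hSm
  have hSle : Sm ≤ RR n - (θ + 1) := by
    have h1 : ∑ k ∈ range a, rr (k + 1) * Real.exp (-(μ * ((k : ℝ) + 1))) ≤ RR a := by
      rw [RR_range]
      refine Finset.sum_le_sum fun k _ => ?_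
      have : Real.exp (-(μ * ((k : ℝ) + 1))) ≤ 1 := by
        rw [Real.exp_le_one_iff]
        have : 0 ≤ μ * ((k : ℝ) + 1) := by positivity
        linarith
      calc rr (k + 1) * Real.exp (-(μ * ((k : ℝ) + 1))) ≤ rr (k + 1) * 1 :=
            mul_le_mul_of_nonneg_left this (hr0 _).le
        _ = rr (k + 1) := mul_one _
    have h2 : ∑ k ∈ Ico a n, rr (k + 1) * Real.exp (-(μ * ((k : ℝ) + 1))) ≤
        1 / 2 * (RR n - RR a) := by
      have h3 : RR n - RR a = ∑ k ∈ Ico a n, rr (k + 1) := by
        rw [RR_range, RR_range, Finset.sum_Ico_eq_sub _ han]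
      rw [h3, Finset.mul_sum]
      refine Finset.sum_le_sum fun k hk => ?_
      rw [Finset.mem_Ico] at hk
      have h4 : n < (k + 1) * C1 := by
        have h5 : n < (a + 1) * C1 := by
          have := Nat.lt_mul_div_succ n hC1n
          rw [mul_comm]
          exact this
        exact lt_of_lt_of_le h5 (Nat.mul_le_mul_right _ (by omega))
      have h4' : (n : ℝ) < ((k : ℝ) + 1) * C1 := by exact_mod_cast h4
      have h5 : 1 ≤ μ * ((k : ℝ) + 1) := by
        rw [hμ, div_mul_eq_mul_div, le_div_iff₀ hn0]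
        linarith
      have h6 : Real.exp (-(μ * ((k : ℝ) + 1))) ≤ 1 / 2 := by
        have h7 : Real.exp (-(μ * ((k : ℝ) + 1))) ≤ Real.exp (-1) := by
          apply Real.exp_le_exp.mpr
          linarith
        have h8 : Real.exp (-1) ≤ 1 / 2 := by
          rw [Real.exp_neg, inv_eq_one_div]
          apply one_div_le_one_div_of_le (by norm_num)
          have := Real.add_one_le_exp (1 : ℝ)
          linarith
        exact h7.trans h8
      calc rr (k + 1) * Real.exp (-(μ * ((k : ℝ) + 1))) ≤ rr (k + 1) * (1 / 2) :=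
            mul_le_mul_of_nonneg_left h6 (hr0 _).le
        _ = 1 / 2 * rr (k + 1) := by ring
    have h3 : Sm = ∑ k ∈ range a, rr (k + 1) * Real.exp (-(μ * ((k : ℝ) + 1))) +
        ∑ k ∈ Ico a n, rr (k + 1) * Real.exp (-(μ * ((k : ℝ) + 1))) :=
      (Finset.sum_range_add_sum_Ico _ han).symm
    rw [h3]
    linarith
  have hsS : s * Sm ≤ 1 - s := by
    have h1 : s * Sm ≤ s * (RR n - (θ + 1)) := mul_le_mul_of_nonneg_left hSle hs.le
    have h2 : s * (-θ) ≤ s * (1 / s - RR n) := mul_le_mul_of_nonneg_left hL hs.le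
    have h3 : s * (1 / s - RR n) = 1 - s * RR n := by field_simp
    nlinarith
  have hind : ∀ j : ℕ, j ≤ n → s * UU s j ≤ Real.exp (μ * j) := by
    intro j
    induction j using Nat.strong_induction_on with
    | _ j ih =>
      intro hjn
      have e1 : s * UU s j = s + s * ∑ k ∈ range j, rr (k + 1) * (s * UU s (j - 1 - k)) := by
        rw [UU_refl, mul_add, mul_one]
        congr 1
        rw [Finset.mul_sum, Finset.mul_sum, Finset.mul_sum]
        refine Finset.sum_congr rfl fun k _ => ?_
        ring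
      have e2 : ∑ k ∈ range j, rr (k + 1) * (s * UU s (j - 1 - k)) ≤
          Real.exp (μ * j) * Sm := by
        calc ∑ k ∈ range j, rr (k + 1) * (s * UU s (j - 1 - k))
            ≤ ∑ k ∈ range j, Real.exp (μ * j) *
                (rr (k + 1) * Real.exp (-(μ * ((k : ℝ) + 1)))) := by
              refine Finset.sum_le_sum fun k hk => ?_
              rw [Finset.mem_range] at hk
              have h1 := ih (j - 1 - k) (by omega) (by omega)
              have h2 : ((j - 1 - k : ℕ) : ℝ) = (j : ℝ) - ((k : ℝ) + 1) := by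
                have : j - 1 - k = j - (k + 1) := by omega
                rw [this, Nat.cast_sub (by omega)]
                push_cast; ring
              rw [h2] at h1
              have h3 : Real.exp (μ * ((j : ℝ) - ((k : ℝ) + 1))) =
                  Real.exp (μ * j) * Real.exp (-(μ * ((k : ℝ) + 1))) := by
                rw [← Real.exp_add]
                congr 1
                ring
              rw [h3] at h1
              calc rr (k + 1) * (s * UU s (j - 1 - k)) ≤
                  rr (k + 1) * (Real.exp (μ * j) * Real.exp (-(μ * ((k : ℝ) + 1)))) :=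
                    mul_le_mul_of_nonneg_left h1 (hr0 _).le
                _ = _ := by ring
          _ = Real.exp (μ * j) * ∑ k ∈ range j, rr (k + 1) * Real.exp (-(μ * ((k : ℝ) + 1))) := by
              rw [Finset.mul_sum]
          _ ≤ Real.exp (μ * j) * Sm := by
              apply mul_le_mul_of_nonneg_left _ (Real.exp_pos _).le
              apply Finset.sum_le_sum_of_subset_of_nonneg
              · intro k hk
                rw [Finset.mem_range] at hk ⊢
                omega
              · intro k _ _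
                exact mul_nonneg (hr0 _).le (Real.exp_pos _).le
      have e3 : 1 ≤ Real.exp (μ * j) := Real.one_le_exp (by positivity)
      have e4 : s * (Real.exp (μ * j) * Sm) ≤ Real.exp (μ * j) * (1 - s) := by
        calc s * (Real.exp (μ * j) * Sm) = Real.exp (μ * j) * (s * Sm) := by ring
          _ ≤ _ := mul_le_mul_of_nonneg_left hsS (Real.exp_pos _).le
      rw [e1]
      have e5 := mul_le_mul_of_nonneg_left e2 hs.le
      nlinarith
  have hfin := hind n le_rfl
  have hμn : μ * n = C1 := by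
    rw [hμ]; field_simp
  rw [hμn] at hfin
  linarith

theorem t_UUC : S_UUC := by
  intro hRR hUU θ1 hθ
  obtain ⟨C0, hC0, hcrit⟩ := crit hRR hUU (θ1 + 1) (by linarith)
  refine ⟨2 * C0, by linarith, ?_⟩
  intro s n hs hsC hL
  have hsC0 : s ≤ 1 / C0 := by
    refine hsC.trans ?_
    apply one_div_le_one_div_of_le (by linarith)
    linarith
  have hshalf : s ≤ 1 / 2 := by
    refine hsC.trans ?_
    apply one_div_le_one_div_of_le (by norm_num)
    linarith
  refine ⟨?_, ?_, ?_, ?_⟩
  · have := hcrit s n hs hsC0 (by linarith)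
    linarith
  · exact sub_bound hUU s n hs
  · intro k hk
    exact UU_mono hRR.1 s hs.le hk
  · intro s' hs'
    have h1 : 3 / 4 ≤ 1 - s ^ 2 := by nlinarith
    have h1' : (0 : ℝ) < 1 - s ^ 2 := by linarith
    have h2 : 0 < s' := by rw [hs']; exact div_pos hs h1'
    have h3 : s' ≤ 1 / C0 := by
      have h4 : s' ≤ 2 * s := by
        rw [hs', div_le_iff₀ h1']
        nlinarith
      have h5 : 2 * s ≤ 1 / C0 := by
        rw [le_div_iff₀ (by linarith)] at hsC ⊢
        linarith
      linarith
    have h4 : 1 / s' = 1 / s - s := by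
      rw [hs']
      field_simp
    have := hcrit s' n h2 h3 (by rw [h4]; linarith)
    linarith

end Pool.Agent.H230.CW
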